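import Pool.Agent.TH311.LM.L7
import Pool.Agent.TH289.C.C7

/-!
# Hyperbolic PD3 groups: a finite local test for being Kleinian

The Gromov boundary of a hyperbolic `PD_3` group `G` is `S^2` (Bestvina-Mess), and the action of `G`
on its boundary is a uniform convergence action, that is, a convergence action which is cocompact
on triples of distinct points (Tukia, Freden, Bowditch).

Let `G` be a finitely generated group with such an action on `S^n`, `n ≥ 2`, and let `U` be any
nonempty open subset of `S^n`, as small as one likes. There is a FINITE subset `F` of `G` such that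
the following are equivalent: (1) there is a Moebius structure on `U` which the elements of `F`
preserve, where they map `U` to `U`; (2) `G` acts properly discontinuously and cocompactly by
isometries on `H^{n+1}`, and the given action on `S^n` is topologically conjugate to the action on
the boundary of `H^{n+1}`. In (2) the action is faithful if `G` is torsion-free.
-/

set_option autoImplicit false

open Filter Topology Set Pool.Agent.TH289.C

namespace Pool.Agent.TH311.Old.FiniteLocalMoebius

/-- In the local coordinates `φ` near `x` and `ψ` near `g x`, `g` is the boundary map of an isometry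
of `H^{n+1}` near `x`. -/
def MoebiusAt {n : ℕ} {G : Type} [Group G] (α : Action G (Sn n)) (g : G) (φ ψ : Sn n → Sn n)
    (x : Sn n) : Prop :=
  ∃ T : Mink n ≃L[ℝ] Mink n, (∀ v, lor (T v) = lor v) ∧ 0 < time (T (origin n)) ∧
    ∀ᶠ y in 𝓝 x, ∃ c : ℝ, 0 < c ∧ T (light (φ y)) = c • light (ψ (α.map g y))

/-- The charts `φ a`, defined on the open sets `W a`, form an atlas of a Moebius structure on `U`
that is preserved by the elements `g` of `F`, on `U ∩ g⁻¹ U`. -/
structure InvariantAtlas {n : ℕ} {G : Type} [Group G] (α : Action G (Sn n)) (U : Set (Sn n))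
    (F : Set G) {ι : Type} (W : ι → Set (Sn n)) (φ : ι → Sn n → Sn n) : Prop where
  isOpen : ∀ a, IsOpen (W a)
  cover : ⋃ a, W a = U
  chart : ∀ a, ContinuousOn (φ a) (W a) ∧ InjOn (φ a) (W a) ∧
    ∀ O ⊆ W a, IsOpen O → IsOpen (φ a '' O)
  compatible : ∀ a b, ∀ x ∈ W a, x ∈ W b → MoebiusAt α 1 (φ a) (φ b) x
  preserved : ∀ g ∈ F, ∀ a b, ∀ x ∈ W a, α.map g x ∈ W b → MoebiusAt α g (φ a) (φ b) x

theorem result (n : ℕ) (hn : 2 ≤ n) {G : Type} [Group G] (hG : Group.FG G) (α : Action G (Sn n))
    (hα : Converges α) (hco : TripleCocompact α) (U : Set (Sn n)) (hU : IsOpen U)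
    (hne : U.Nonempty) :
    ∃ F : Finset G,
      (∃ (ι : Type) (W : ι → Set (Sn n)) (φ : ι → Sn n → Sn n), InvariantAtlas α U F W φ) ↔
      ∃ (ρ : LinAction G (Mink n)) (f : Sn n → Sn n), IsHomeomorph f ∧ HypSemiconj α ρ f ∧
        ActsProperly (HypSpace n) (fun g => ρ.map g) ∧
        ActsCocompactly (HypSpace n) (fun g => ρ.map g) ∧
        ((∀ g : G, IsOfFinOrder g → g = 1) → Function.Injective ρ.map) := by
  have hE : 3 ≤ Module.finrank ℝ (Euc n) := by simp; omega
  obtain ⟨F, hF⟩ := Pool.Agent.TH311.LM.finite_test (E := Euc n) (α := α.hom) (by omega) hα hco hG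
    (U := U) hU hne
  refine ⟨F, ?_, ?_⟩
  · rintro ⟨ι, W, φ, hA⟩
    have key : ∀ g : G, ∀ a b, ∀ x, MoebiusAt α g (φ a) (φ b) x →
        ∃ T : Pool.Agent.TH311.LM.IG (Euc n), ∀ᶠ y in 𝓝 (x : Sph (Euc n)),
          φ b (α.hom g y) = Pool.Agent.TH311.LM.mo T (φ a y) := by
      rintro g a b x ⟨T, h1, h2, h3⟩
      refine ⟨⟨T, h1, h2⟩, ?_⟩
      filter_upwards [h3] with y hy
      obtain ⟨c, hc, hy⟩ := hy
      exact (Pool.Agent.TH311.LM.mo_unique (T := ⟨T, h1, h2⟩) (x := φ a y)
        (y := φ b (α.map g y)) hy).2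
    have hall := hF ι W φ hA.cover (fun g hg a b x hx hx' =>
      key g a b x (hA.preserved g hg a b x hx hx'))
    obtain ⟨ξ, hξ⟩ := hne
    rw [← hA.cover] at hξ
    obtain ⟨a, ha⟩ := mem_iUnion.1 hξ
    obtain ⟨ρ, f, h1, h2, h3⟩ := Pool.Agent.TH311.LM.assemble (E := Euc n) (α := α.hom) hE hα hco
      (U := W a) (hA.isOpen a) ⟨ξ, ha⟩ (φ := φ a)
      ⟨(hA.chart a).1, (hA.chart a).2.1, (hA.chart a).2.2⟩ (fun g x hx hx' => hall g a a x hx hx')
    set ρ' : LinAction G (Mink n) :=
      { map := fun g => (((ρ g : Pool.Agent.TH311.LM.IG (Euc n)) :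
          (ℝ × Euc n) ≃L[ℝ] (ℝ × Euc n)) : (ℝ × Euc n) →L[ℝ] (ℝ × Euc n))
        map_one := fun v => by
          rw [map_one]; rfl
        map_mul := fun g h v => by
          rw [map_mul]; rfl } with hρ'
    have hp : ActsProperly (HypSpace n) (fun g => ρ'.map g) := h2
    refine ⟨ρ', f, f.isHomeomorph, ⟨fun g v => (Pool.Agent.TH311.LM.isoOf (ρ g)).1 v,
      fun g => (Pool.Agent.TH311.LM.isoOf (ρ g)).2, fun g (x : Sph (Euc n)) => ?_⟩, hp, h3, ?_⟩
    · have h4 := Pool.Agent.TH311.LM.mo_spec (ρ g) (f x)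
      rw [← h1 g x] at h4
      exact ⟨Pool.Agent.TH311.LM.cf (ρ g) (f x), Pool.Agent.TH311.LM.cf_pos _ _, h4⟩
    · intro htf g g' hgg
      have hk : ∀ k : G, (∀ v, ρ'.map k v = v) → k = 1 := by
        intro k hk
        apply htf
        have ho : origin n ∈ HypSpace n := by
          constructor
          · change (1 : ℝ) ^ 2 - ‖(0 : Euc n)‖ ^ 2 = 1
            simp
          · change (0 : ℝ) < 1
            exact one_pos
        have hfin := hp {origin n} (by simpa using ho) isCompact_singleton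
        have hpow : ∀ m : ℕ, ∀ v, ρ'.map (k ^ m) v = v := by
          intro m
          induction m with
          | zero => intro v; rw [pow_zero, ρ'.map_one]
          | succ m ih => intro v; rw [pow_succ, ρ'.map_mul, hk, ih]
        rw [← finite_powers]
        refine hfin.subset ?_
        rintro _ ⟨m, rfl⟩
        exact ⟨origin n, rfl, hpow m _⟩
      have h5 : g'⁻¹ * g = 1 := by
        apply hk
        intro v
        rw [ρ'.map_mul, hgg, ← ρ'.map_mul, inv_mul_cancel, ρ'.map_one]
      exact (inv_mul_eq_one.1 h5).symm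
  · rintro ⟨ρ, f, hf, ⟨h1, h2, h3⟩, -, -, -⟩
    have hM : ∀ g x, MoebiusAt α g f f x := by
      intro g x
      exact ⟨ρ.hom g, fun v => h1 g v, h2 g, Eventually.of_forall fun y => h3 g y⟩
    refine ⟨Unit, fun _ => U, fun _ => f, fun _ => hU, iUnion_const U, fun _ =>
      ⟨hf.continuous.continuousOn, hf.injective.injOn, fun O _ hO => hf.isOpenMap O hO⟩,
      fun _ _ x _ _ => hM 1 x, fun g _ _ _ x _ _ => hM g x⟩

end Pool.Agent.TH311.Old.FiniteLocalMoebius
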